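import Pool.Agent.Lib.MP_a9445a_lc.Mg.G106
import Pool.Agent.Lib.MP_a9445a_lc.Mg.G098
import Pool.Agent.Lib.MP_a9445a_lc.Mg.G136

/-! The golden procedure of the program. -/

set_option autoImplicit false

open Finset
open scoped symmDiff

namespace Pool.Agent.MPa9445a.SX

open Pool.Agent.MPa9445a.BE
open Pool.Agent.MPa9445a.SN (ST Fm rs kb rb)
open Pool.Agent.MPa9445a.GL (Vc S Ph Lv Fr lvl LL lvv rk rc fR bl res SR Good)
open Pool.Agent.MPa9445a.GS (oT oH Rz RB)
open Pool.Agent.MPa9445a.SB (Rf Hm Om)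

variable {n : ℕ}

/-! ### Auxiliary lemmas -/

private theorem V5_gt_tb {k : ℕ} (f : ℕ → ℤ) {i : ℕ} (h : i < k) : gt (tb k f) i = f i := by
  change (tb k f).getD i 0 = f i
  rw [getD_tb, if_pos h]

private theorem V5_gt_cpy {k : ℕ} (L : List ℤ) {i : ℕ} (h : i < k) :
    gt (GS.cpy k L) i = gt L i := by
  unfold GS.cpy
  rw [V5_gt_tb _ h]

private theorem V5_cpy_congr {k : ℕ} {L L' : List ℤ} (h : ∀ i < k, gt L i = gt L' i) :
    GS.cpy k L = GS.cpy k L' := by
  unfold GS.cpy tb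
  refine List.map_congr_left fun i hi => ?_
  exact h i (List.mem_range.1 hi)

private theorem V5_wtm_cpy (M : List ℤ) : wtm n (GS.cpy (n * n) M) = wtm n M := by
  funext u v
  change wt n (GS.cpy (n * n) M) u v = wt n M u v
  unfold wt
  have h1 : (u : ℕ) * n + v < n * n := by
    calc (u : ℕ) * n + v < u * n + n := by have := v.2; omega
      _ = (u + 1) * n := by ring
      _ ≤ n * n := Nat.mul_le_mul_right _ u.2
  rw [V5_gt_cpy M h1]

private theorem V5_fv_cpy (s : List ℤ) : fv n (GS.cpy n s) = fv n s := by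
  funext v
  exact V5_gt_cpy s v.2

private theorem V5_RR_congr {R R' : List ℤ} {o : ℕ}
    (h : ∀ i < GL.RL n, gt R (o + i) = gt R' (o + i)) : GL.RR n R o = GL.RR n R' o := by
  have hRL : GL.RL n = 2 * GL.bl n + n * n + GL.Rn n * n := rfl
  have e1 : GL.fR n R o = GL.fR n R' o := fR_congr fun i hi => h i (by omega)
  have e2 : GL.fR n R (o + GL.bl n) = GL.fR n R' (o + GL.bl n) := fR_congr fun i hi => by
    rw [add_assoc]
    exact h _ (by omega)
  have e3 : GL.AR n R (o + 2 * GL.bl n) = GL.AR n R' (o + 2 * GL.bl n) := by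
    funext v
    unfold GL.AR
    refine Finset.filter_congr fun u _ => ?_
    have h1 : (v : ℕ) * n + u < n * n := by
      calc (v : ℕ) * n + u < v * n + n := by have := u.2; omega
        _ = (v + 1) * n := by ring
        _ ≤ n * n := Nat.mul_le_mul_right _ v.2
    have h2 : o + 2 * GL.bl n + v * n + u = o + (2 * GL.bl n + (v * n + u)) := by ring
    rw [h2, h _ (by omega)]
  have e4 : GL.HR n R (o + 2 * GL.bl n) = GL.HR n R' (o + 2 * GL.bl n) := by
    funext i
    unfold GL.HR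
    refine Finset.filter_congr fun v _ => ?_
    have h1 : (i : ℕ) * n + v < GL.Rn n * n := by
      calc (i : ℕ) * n + v < i * n + n := by have := v.2; omega
        _ = (i + 1) * n := by ring
        _ ≤ GL.Rn n * n := Nat.mul_le_mul_right _ i.2
    have h2 : o + 2 * GL.bl n + n * n + i * n + v =
        o + (2 * GL.bl n + n * n + (i * n + v)) := by ring
    rw [h2, h _ (by omega)]
  unfold GL.RR
  rw [e1, e2, e3, e4]

private theorem V5_SR_congr {R R' : List ℤ} : ∀ k : ℕ,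
    (∀ i < k * GL.Zn n * GL.RL n, gt R i = gt R' i) → SR n R k = SR n R' k
  | 0, _ => rfl
  | k + 1, h => by
    have h0 : k * GL.Zn n * GL.RL n ≤ (k + 1) * GL.Zn n * GL.RL n :=
      Nat.mul_le_mul_right _ (Nat.mul_le_mul_right _ (Nat.le_succ k))
    have e1 : SR n R k = SR n R' k := V5_SR_congr k fun i hi => h i (lt_of_lt_of_le hi h0)
    have e2 : (fun z : Fin (GL.Zn n) => GL.RR n R (GL.ofs n k z)) =
        fun z : Fin (GL.Zn n) => GL.RR n R' (GL.ofs n k z) := by
      funext z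
      refine V5_RR_congr fun i hi => h _ ?_
      unfold GL.ofs
      calc (k * GL.Zn n + z) * GL.RL n + i < (k * GL.Zn n + z) * GL.RL n + GL.RL n := by omega
        _ = (k * GL.Zn n + (z + 1)) * GL.RL n := by ring
        _ ≤ (k * GL.Zn n + GL.Zn n) * GL.RL n :=
          Nat.mul_le_mul_right _ (Nat.add_le_add_left z.2 _)
        _ = (k + 1) * GL.Zn n * GL.RL n := by ring
    change (SR n R k, fun z : Fin (GL.Zn n) => GL.RR n R (GL.ofs n k z)) =
      (SR n R' k, fun z : Fin (GL.Zn n) => GL.RR n R' (GL.ofs n k z))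
    rw [e1, e2]

private theorem V5_St_bl (X : Finset (Fin n)) : GL.St (SB.bl X) := by
  intro v
  unfold SB.bl
  by_cases hv : v ∈ X
  · rw [if_pos hv]
    exact Or.inr (Or.inr (Or.inr rfl))
  · rw [if_neg hv]
    exact Or.inl rfl

/-- PROOF. The binary digits of `∑ v ∈ X, 2 ^ v` (`SN/C1b`: codes of sets); `fv_tb`. -/
theorem fv_bkA (X : Finset (Fin n)) : fv n (GS.bkA n (∑ v ∈ X, 2 ^ (v : ℕ))) = SB.bl X := by
  have h1 : ∑ v ∈ X, 2 ^ (v : ℕ) =
      ∑ v ∈ range n, (if h : v < n then (if (⟨v, h⟩ : Fin n) ∈ X then 1 else 0) else 0) * 2 ^ v := by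
    rw [Finset.sum_range]
    have h2 : ∀ v : Fin n, (if h : (v : ℕ) < n then (if (⟨v, h⟩ : Fin n) ∈ X then 1 else 0) else 0) *
        2 ^ (v : ℕ) = if v ∈ X then 2 ^ (v : ℕ) else 0 := by
      intro v
      rw [dif_pos v.2]
      by_cases hv : v ∈ X
      · rw [if_pos hv, if_pos hv, one_mul]
      · rw [if_neg hv, if_neg hv, zero_mul]
    rw [Finset.sum_congr rfl fun v _ => h2 v, Finset.sum_ite_mem, Finset.univ_inter]
  have h3 : ST n (∑ v ∈ X, 2 ^ (v : ℕ)) = X := by
    rw [h1, GL.ST_sum]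
    · ext v
      rw [mem_filter]
      constructor
      · rintro ⟨_, h⟩
        rw [dif_pos v.2] at h
        by_contra hv
        rw [if_neg hv] at h
        exact absurd h (by norm_num)
      · intro hv
        refine ⟨mem_univ v, ?_⟩
        rw [dif_pos v.2, if_pos hv]
    · intro v
      split_ifs
      · exact Or.inr rfl
      · exact Or.inl rfl
      · exact Or.inl rfl
  funext v
  unfold GS.bkA
  rw [fv_tb]
  unfold SB.bl
  have h4 : bit (∑ v ∈ X, 2 ^ (v : ℕ)) v = 1 ↔ v ∈ X := by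
    conv_rhs => rw [← h3]
    unfold Pool.Agent.MPa9445a.SN.ST
    rw [mem_filter]
    exact ⟨fun h => ⟨mem_univ v, h⟩, fun h => h.2⟩
  by_cases hv : v ∈ X
  · rw [if_pos (h4.2 hv), if_pos hv]
  · rw [if_neg (fun h => hv (h4.1 h)), if_neg hv]

/-- The golden procedure only uses the first `oH n` bits. PROOF. `GS.GO` copies them (`GS.cpy`). -/
theorem GO_congr {M R R' : List ℤ} (h : ∀ i < oH n, gt R i = gt R' i) (s : List ℤ) (p : ℤ)
    (b : ℕ) : GS.GO n M R s p b = GS.GO n M R' s p b := by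
  unfold GS.GO
  rw [V5_cpy_congr h]

/-- PROOF. `GO_congr`; the entries of `RT` below `oH n` are the entries of `Rz` (`gt_RT`), these are the bits. -/
theorem GoR_RT (M : List ℤ) (ρ : Fin (Lb n) → Bool) (z : Fin (NR n)) :
    GoR n M (RT n M (rb ρ) z) = GoR n M (rb (bG n ρ)) := by
  have hle : oH n ≤ oT n := by
    unfold oT GS.oF
    omega
  have h1 : ∀ i < oH n, gt (RT n M (rb ρ) z) i = gt (rb (bG n ρ)) i := by
    intro i hi
    rw [gt_RT M (rb ρ) z (lt_of_lt_of_le hi hle)]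
    have e1 : gt (Rz n (rb ρ) z) i = gt (rb ρ) i := by
      unfold Rz
      rw [V5_gt_tb _ (lt_of_lt_of_le hi hle), if_pos hi]
    have e2 : rb (bG n ρ) = tb (oH n) fun i => gt (rb ρ) i := by
      unfold bG
      exact (GL.tb_rb (Nat.le_add_right (oH n) (NR n * RB n)) ρ).symm
    rw [e1, e2, V5_gt_tb _ hi]
  funext X a j
  unfold GoR
  rw [GO_congr h1]

/-- The properties of the golden procedure if the random bits are good. PROOF. `cpl`: the definition of `GoR`. `ff`: the first test of `GL.EE` (`k = 8`: `nxt`) is the exhaustive search for `rk s n ≤ b` (`rk_bl`). `gd`: `Good` gives `Ok`, since `γ 8 ^ #X ≤ 2 ^ (gam * #X)` (`gam8`, file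
`SB/Gam`) and `Fr (bl X) = X`; `GL.EE_cmp` (`GL/Q7d`) for the arrays `cpy (n * n) M`, `cpy (oH n) (rb ρ)` (same `wtm`, same `SR .. 8` because only the first entries are used). `0.6943 = gam`. -/
theorem GO_GoR {M : List ℤ} (hW : GL.Wb (wtm n M)) {R : List ℤ}
    (h : Good (wtm n M) 8 (SR n R 8)) : SB.GO (wtm n M) (GoR n M R) := by
  have hgo : ∀ (X : Finset (Fin n)) (a : ℤ) (j : ℕ), GoR n M R X a j = none →
      GS.GO n M R (GS.bkA n (∑ v ∈ X, 2 ^ (v : ℕ))) a j = [] := by
    intro X a j hX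
    by_contra hc
    unfold GoR at hX
    rw [if_neg hc] at hX
    exact absurd hX (by simp)
  have hfv : ∀ X : Finset (Fin n),
      fv n (GS.cpy n (GS.bkA n (∑ v ∈ X, 2 ^ (v : ℕ)))) = SB.bl X := by
    intro X
    rw [V5_fv_cpy, fv_bkA]
  refine ⟨?_, ?_, ?_⟩
  · intro X a _ j
    unfold GoR
    by_cases hc : GS.GO n M R (GS.bkA n (∑ v ∈ X, 2 ^ (v : ℕ))) a j = []
    · exact Or.inl (if_pos hc)
    · exact Or.inr (if_neg hc)
  · intro X a j hX hn
    have h1 := hgo X a j hn
    have h2 : GL.rk (GS.cpy n (GS.bkA n (∑ v ∈ X, 2 ^ (v : ℕ)))) n ≤ j := by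
      rw [rk_bl (hfv X)]
      exact hX
    unfold GS.GO at h1
    change GL.nxt (GL.EE n _ _ 7) n _ _ 7 _ a j = [] at h1
    unfold GL.nxt at h1
    rw [if_pos h2] at h1
    exact absurd h1 (by simp)
  · intro X a ha q hq j hj hn
    have h1 := hgo X a j hn
    unfold GS.GO at h1
    have hSR : SR n (GS.cpy (oH n) R) 8 = SR n R 8 :=
      V5_SR_congr 8 fun i hi => V5_gt_cpy R hi
    have hcmp := GL.EE_cmp (n := n) (M := GS.cpy (n * n) M) (by rw [V5_wtm_cpy]; exact hW)
      (GS.cpy (oH n) R) 8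
    rw [V5_wtm_cpy, hSR] at hcmp
    refine hcmp _ (by rw [hfv]; exact V5_St_bl X) a ha j ?_ h1
    rw [hfv]
    refine h _ (V5_St_bl X) a ha (2 ^ j) q hq ?_
    rw [Fr_bl]
    push_cast
    refine le_trans ?_ hj
    have hg0 : 0 ≤ GL.γ 8 := Real.sqrt_nonneg _
    have hg : GL.γ 8 ^ X.card ≤ (2 : ℝ) ^ (SB.gam * X.card) := by
      calc GL.γ 8 ^ X.card ≤ ((2 : ℝ) ^ (0.6943 : ℝ)) ^ X.card := pow_le_pow_left₀ hg0 SB.gam8 _
        _ = (2 : ℝ) ^ (SB.gam * X.card) := by
          rw [← Real.rpow_natCast, ← Real.rpow_mul (by norm_num)]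
          congr 2
          unfold SB.gam
          norm_num
    gcongr

end Pool.Agent.MPa9445a.SX
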