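import Pool.Agent.Lib.MP_a9445a_lc.Mg.G030
import Pool.Agent.Lib.MP_a9445a_lc.Mg.G108

/-! The theorem. -/

set_option autoImplicit false

open Finset

namespace Pool.Agent.MPa9445a.SX

open Pool.Agent.MPa9445a.BE hiding rb
open Pool.Agent.MPa9445a.SN (rb)
open Pool.Agent.MPa9445a.GL (Dj Dj_input tb_rb res card_res)

private theorem V7_poly (d : ℕ) {ρ : ℝ} (hρ : 1 < ρ) :
    ∃ C : ℝ, 0 < C ∧ ∀ n : ℕ, ((n : ℝ) + 2) ^ d ≤ C * ρ ^ n := by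
  have h := tendsto_pow_const_div_const_pow_of_one_lt d hρ
  obtain ⟨M, hM⟩ := h.bddAbove_range
  have hρ0 : 0 < ρ := by linarith
  refine ⟨(|M| + 1) * ρ ^ 2, by positivity, fun n => ?_⟩
  have h1 : ((n + 2 : ℕ) : ℝ) ^ d / ρ ^ (n + 2) ≤ M := hM ⟨n + 2, rfl⟩
  have h2 : (0 : ℝ) < ρ ^ (n + 2) := by positivity
  rw [div_le_iff₀ h2] at h1
  have h3 : ((n + 2 : ℕ) : ℝ) = (n : ℝ) + 2 := by push_cast; ring
  rw [h3] at h1
  calc ((n : ℝ) + 2) ^ d ≤ M * ρ ^ (n + 2) := h1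
    _ ≤ (|M| + 1) * ρ ^ (n + 2) := by
        apply mul_le_mul_of_nonneg_right _ h2.le
        linarith [le_abs_self M]
    _ = (|M| + 1) * ρ ^ 2 * ρ ^ n := by ring

private theorem V7_exp (d : ℕ) {ε : ℝ} (hε : 0 < ε) :
    ∃ C : ℝ, 0 < C ∧ ∀ n : ℕ, ((n : ℝ) + 2) ^ d ≤ C * 2 ^ (ε * n) := by
  obtain ⟨C, hC, h⟩ := V7_poly d (ρ := (2 : ℝ) ^ ε) (Real.one_lt_rpow (by norm_num) hε)
  refine ⟨C, hC, fun n => (h n).trans (le_of_eq ?_)⟩
  rw [Real.rpow_mul (by norm_num), Real.rpow_natCast]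

private theorem V7_lg (n : ℕ) : 2 ^ GS.lgn n ≤ (n + 2) ^ 2 := by
  rw [lgn_lg]
  unfold SB.lg
  have h1 : 2 ^ (Nat.clog 2 (n + 2)).pred < n + 2 := Nat.pow_pred_clog_lt_self (by norm_num) (by omega)
  have h2 : 0 < Nat.clog 2 (n + 2) := Nat.clog_pos (by norm_num) (by omega)
  obtain ⟨k, hk⟩ : ∃ k, Nat.clog 2 (n + 2) = k + 1 := ⟨Nat.clog 2 (n + 2) - 1, by omega⟩
  rw [hk] at h1 ⊢
  rw [Nat.pred_succ] at h1
  calc 2 ^ (k + 1) = 2 * 2 ^ k := by ring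
    _ ≤ 2 * (n + 2) := by omega
    _ ≤ (n + 2) * (n + 2) := Nat.mul_le_mul_right _ (by omega)
    _ = (n + 2) ^ 2 := by ring

private theorem V7_bT (cb n : ℕ) :
    (2 : ℝ) ^ bT cb n ≤ ((n : ℝ) + 2) ^ (2 * cb) * 2 ^ ((0.6665 : ℝ) * n) := by
  have h1 : (2 : ℝ) ^ bT cb n = 2 ^ GS.g0 n * (2 ^ GS.lgn n) ^ cb := by
    unfold bT
    rw [pow_add, ← pow_mul, mul_comm cb]
  have h2 : ((2 : ℝ) ^ GS.lgn n) ^ cb ≤ ((n : ℝ) + 2) ^ (2 * cb) := by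
    rw [pow_mul]
    refine pow_le_pow_left₀ (by positivity) ?_ _
    exact_mod_cast V7_lg n
  have h3 : (2 : ℝ) ^ GS.g0 n ≤ 2 ^ ((0.6665 : ℝ) * n) := by
    rw [← Real.rpow_natCast]
    apply Real.rpow_le_rpow_of_exponent_le (by norm_num)
    unfold GS.g0
    have h4 : 6665 * n / 10000 * 10000 ≤ 6665 * n := Nat.div_mul_le_self _ _
    have h5 : ((6665 * n / 10000 : ℕ) : ℝ) * 10000 ≤ 6665 * n := by exact_mod_cast h4
    linarith
  rw [h1, mul_comm]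
  exact mul_le_mul h2 h3 (by positivity) (by positivity)

private theorem V7_cost (d cb n₀ : ℕ) (hn₀ : 10000000000 ≤ n₀) : ∃ C : ℝ, ∀ (n : ℕ) (τ : ℝ), 2 ≤ τ →
    ((n : ℝ) + 2) ^ d * (if n < n₀ then 2 ^ n else 2 ^ bT cb n + BW.wB τ n) ≤
      C * 2 ^ ((τ / 3 - 0.0000000005) * n) := by
  obtain ⟨C₁, hC₁, h1⟩ := V7_exp (d + 2 * cb) (ε := 0.0001) (by norm_num)
  obtain ⟨C₂, hC₂, h2⟩ := V7_exp d (ε := 0.0000000005) (by norm_num)
  refine ⟨((n₀ : ℝ) + 2) ^ d * 2 ^ n₀ + C₁ + C₂, fun n τ hτ => ?_⟩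
  have hn : (0 : ℝ) ≤ n := Nat.cast_nonneg n
  have hone : (1 : ℝ) ≤ 2 ^ ((τ / 3 - 0.0000000005) * n) :=
    Real.one_le_rpow (by norm_num) (mul_nonneg (by linarith) hn)
  have hpos : (0 : ℝ) < 2 ^ ((τ / 3 - 0.0000000005) * n) := lt_of_lt_of_le one_pos hone
  split_ifs with hlt
  · have a1 : ((n : ℝ) + 2) ^ d * 2 ^ n ≤ ((n₀ : ℝ) + 2) ^ d * 2 ^ n₀ := by
      have h3 : (n : ℝ) ≤ n₀ := by exact_mod_cast hlt.le
      refine mul_le_mul ?_ (pow_le_pow_right₀ (by norm_num) hlt.le) (by positivity) (by positivity)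
      exact pow_le_pow_left₀ (by positivity) (by linarith) _
    have a2 : (0 : ℝ) ≤ ((n₀ : ℝ) + 2) ^ d * 2 ^ n₀ := by positivity
    nlinarith
  · have a1 : ((n : ℝ) + 2) ^ d * 2 ^ bT cb n ≤ C₁ * 2 ^ ((τ / 3 - 0.0000000005) * n) := by
      calc ((n : ℝ) + 2) ^ d * 2 ^ bT cb n ≤
          ((n : ℝ) + 2) ^ d * (((n : ℝ) + 2) ^ (2 * cb) * 2 ^ ((0.6665 : ℝ) * n)) :=
            mul_le_mul_of_nonneg_left (V7_bT cb n) (by positivity)
        _ = ((n : ℝ) + 2) ^ (d + 2 * cb) * 2 ^ ((0.6665 : ℝ) * n) := by rw [pow_add]; ring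
        _ ≤ (C₁ * 2 ^ ((0.0001 : ℝ) * n)) * 2 ^ ((0.6665 : ℝ) * n) :=
            mul_le_mul_of_nonneg_right (h1 n) (by positivity)
        _ = C₁ * 2 ^ ((0.6666 : ℝ) * n) := by
            rw [mul_assoc, ← Real.rpow_add (by norm_num)]
            congr 2
            ring
        _ ≤ C₁ * 2 ^ ((τ / 3 - 0.0000000005) * n) := by
            refine mul_le_mul_of_nonneg_left ?_ hC₁.le
            apply Real.rpow_le_rpow_of_exponent_le (by norm_num)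
            exact mul_le_mul_of_nonneg_right (by linarith) hn
    have a2 : ((n : ℝ) + 2) ^ d * BW.wB τ n ≤ C₂ * 2 ^ ((τ / 3 - 0.0000000005) * n) := by
      calc ((n : ℝ) + 2) ^ d * BW.wB τ n ≤
          (C₂ * 2 ^ ((0.0000000005 : ℝ) * n)) * 2 ^ ((τ / 3 - 0.000000001) * n) :=
            mul_le_mul (h2 n) (BW.wB_le hτ (hn₀.trans (not_lt.1 hlt)))
              (zero_le_one.trans (BW.one_le_wB n hτ)) (by positivity)
        _ = C₂ * 2 ^ ((τ / 3 - 0.0000000005) * n) := by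
            rw [mul_assoc, ← Real.rpow_add (by norm_num)]
            congr 2
            ring
    have a3 : (0 : ℝ) ≤ ((n₀ : ℝ) + 2) ^ d * 2 ^ n₀ * 2 ^ ((τ / 3 - 0.0000000005) * n) := by positivity
    calc ((n : ℝ) + 2) ^ d * (2 ^ bT cb n + BW.wB τ n) =
        ((n : ℝ) + 2) ^ d * 2 ^ bT cb n + ((n : ℝ) + 2) ^ d * BW.wB τ n := mul_add _ _ _
      _ ≤ C₁ * 2 ^ ((τ / 3 - 0.0000000005) * n) + C₂ * 2 ^ ((τ / 3 - 0.0000000005) * n) :=
          add_le_add a1 a2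
      _ ≤ _ := by nlinarith

open scoped Classical in
/-- The main theorem. -/
theorem main_thm23 : ∃ (e : GD.Ex [.int, .arr, .arr] .arr) (K : ℕ) (C δ : ℝ), 0 < δ ∧
    (∀ (n : ℕ) (G : SimpleGraph (Fin n)) (ρ : Fin ((n + 2) ^ K) → Bool) (τ : ℝ), 2 ≤ τ →
      e.cost τ ((n : ℤ), arrG G, rb ρ, ()) ≤ C * 2 ^ ((τ / 3 - δ) * n)) ∧
    ∀ n, Even n → (univ.filter fun ρ : Fin ((n + 2) ^ K) → Bool =>
      ¬ ∀ G : SimpleGraph (Fin n), IsMinBisection G (univ.filter fun v : Fin n =>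
        nth (e.eval ((n : ℤ), arrG G, rb ρ, ())) (v : ℕ) = 1)).card * 2 ^ n ^ 2 ≤
          2 ^ (n + 2) ^ K := by
  obtain ⟨PA, PB, cb, n₀, hn₀, hgood⟩ := main_good
  obtain ⟨K, hK⟩ : ∃ K : ℕ, ∀ n, Lb n ≤ (n + 2) ^ K := ⟨29, Lb_le⟩
  obtain ⟨e, d, he⟩ := program3 PA PB cb n₀ K (le_trans (by norm_num) hn₀)
  obtain ⟨C, hC⟩ := V7_cost d cb n₀ hn₀
  have he' : ∀ (n : ℕ) (G : SimpleGraph (Fin n)) (ρ : Fin ((n + 2) ^ K) → Bool),
      e.eval ((n : ℤ), arrG G, rb ρ, ()) = out PA PB cb n₀ n (arrG G) (rb (res (hK n) ρ)) ∧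
      ∀ τ : ℝ, 2 ≤ τ → e.cost τ ((n : ℤ), arrG G, rb ρ, ()) ≤ ((n : ℝ) + 2) ^ d *
        (if n < n₀ then 2 ^ n else 2 ^ bT cb n + BW.wB τ n) := by
    intro n G ρ
    have h1 := he (n, arrG G, rb ρ) (Dj_input K G ρ)
    rw [← tb_rb (hK n) ρ]
    exact h1
  refine ⟨e, K, C, 0.0000000005, by norm_num, ?_, ?_⟩
  · intro n G ρ τ hτ
    exact ((he' n G ρ).2 τ hτ).trans (hC n τ hτ)
  · intro n hn
    have h0 := hgood n hn
    have h1 := card_res (hK n) fun ρ : Fin (Lb n) → Bool => ¬ ∀ G : SimpleGraph (Fin n),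
      IsMinBisection G (univ.filter fun v : Fin n =>
        gt (out PA PB cb n₀ n (arrG G) (rb ρ)) v = 1)
    have h2 : (univ.filter fun ρ : Fin ((n + 2) ^ K) → Bool =>
        ¬ ∀ G : SimpleGraph (Fin n), IsMinBisection G (univ.filter fun v : Fin n =>
          nth (e.eval ((n : ℤ), arrG G, rb ρ, ())) (v : ℕ) = 1)) =
        univ.filter fun ρ : Fin ((n + 2) ^ K) → Bool => ¬ ∀ G : SimpleGraph (Fin n),
          IsMinBisection G (univ.filter fun v : Fin n =>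
            gt (out PA PB cb n₀ n (arrG G) (rb (res (hK n) ρ))) v = 1) := by
      refine Finset.filter_congr fun ρ _ => not_congr (forall_congr' fun G => ?_)
      rw [(he' n G ρ).1]
      have h3 : (univ.filter fun v : Fin n =>
          nth (out PA PB cb n₀ n (arrG G) (rb (res (hK n) ρ))) (v : ℕ) = 1) =
          univ.filter fun v : Fin n =>
            gt (out PA PB cb n₀ n (arrG G) (rb (res (hK n) ρ))) v = 1 :=
        Finset.filter_congr fun v _ => by rw [nth_nat]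
      rw [h3]
    rw [h2]
    set x := (univ.filter fun ρ : Fin ((n + 2) ^ K) → Bool => ¬ ∀ G : SimpleGraph (Fin n),
      IsMinBisection G (univ.filter fun v : Fin n =>
        gt (out PA PB cb n₀ n (arrG G) (rb (res (hK n) ρ))) v = 1)).card with hx
    set y := (univ.filter fun ρ : Fin (Lb n) → Bool => ¬ ∀ G : SimpleGraph (Fin n),
      IsMinBisection G (univ.filter fun v : Fin n =>
        gt (out PA PB cb n₀ n (arrG G) (rb ρ)) v = 1)).card with hy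
    have h4 : x * 2 ^ Lb n = y * 2 ^ (n + 2) ^ K := by
      rw [hx, hy]
      convert h1
    refine Nat.le_of_mul_le_mul_right (c := 2 ^ Lb n) ?_ (by positivity)
    calc x * 2 ^ n ^ 2 * 2 ^ Lb n = (x * 2 ^ Lb n) * 2 ^ n ^ 2 := by ring
      _ = (y * 2 ^ n ^ 2) * 2 ^ (n + 2) ^ K := by rw [h4]; ring
      _ ≤ 2 ^ Lb n * 2 ^ (n + 2) ^ K := Nat.mul_le_mul_right _ h0
      _ = _ := mul_comm _ _

end Pool.Agent.MPa9445a.SX
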